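import Pool.Agent.THS.StmtsB

/-!
# THS rows FTP and QVR (helper49)
-/

set_option autoImplicit false

namespace Pool.Agent.THS.H49

open scoped BigOperators
open Pool.Agent.THS

theorem ftp : FtpStatement := by
  classical
  intro K _ g N α β T x u M h hu hff
  obtain ⟨e, he⟩ := Function.ne_iff.mp (h.T0 0)
  have he' : T 0 e ≠ 0 := he
  have hval : ∀ (c : Fin g → ZMod 2) (k : ℤ),
      ff β T u (Fin.cons c (fun _ => e)) k =
        β ^ (-(k ^ 2)) * (T k c * ∏ l : Fin 4, T (u l.succ * k) e) := by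
    intro c k
    unfold ff
    rw [Fin.prod_univ_succ]
    simp only [Fin.cons_zero, Fin.cons_succ, hu, Nat.cast_one, one_mul]
  set R : K := ∏ l : Fin 4, T (u l.succ * M) e with hR
  have key : ∀ c, β ^ (-(M ^ 2)) * (T M c * R) = T 0 c * T 0 e ^ 4 := by
    intro c
    have h1 := hff (Fin.cons c (fun _ => e))
    rw [hval, hval] at h1
    rw [hR, h1]
    simp
  have hne : β ^ (-(M ^ 2)) * R ≠ 0 := by
    intro h0
    have h1 := key e
    have h2 : β ^ (-(M ^ 2)) * (T M e * R) = T M e * (β ^ (-(M ^ 2)) * R) := by ring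
    rw [h2, h0, mul_zero] at h1
    exact mul_ne_zero he' (pow_ne_zero 4 he') h1.symm
  refine ⟨T 0 e ^ 4 / (β ^ (-(M ^ 2)) * R), fun c => ?_⟩
  rw [div_mul_eq_mul_div, eq_div_iff hne]
  have h1 := key c
  calc T M c * (β ^ (-(M ^ 2)) * R) = β ^ (-(M ^ 2)) * (T M c * R) := by ring
    _ = T 0 c * T 0 e ^ 4 := h1
    _ = T 0 e ^ 4 * T 0 c := by ring

theorem qvr : QvrStatement := by
  intro K _ _ v
  have h1 : 1 < Ideal.absNorm v.maximalIdeal.asIdeal :=
    NumberField.HeightOneSpectrum.one_lt_absNorm v.maximalIdeal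
  have h2 : (2 : ℝ) ≤ qv v := by
    unfold qv
    exact_mod_cast h1
  refine ⟨h2, fun y hy => ?_⟩
  have hpos : (0 : ℝ) < qv v := by linarith
  by_cases hy0 : y = 0
  · rw [hy0, map_zero]
    exact (inv_pos.mpr hpos).le
  have hv : v.val y = NumberField.HeightOneSpectrum.adicAbv K v.maximalIdeal y := by
    have e1 : v.val y = v y := rfl
    rw [e1, ← NumberField.FinitePlace.norm_embedding_eq v y]
    exact NumberField.FinitePlace.norm_embedding v.maximalIdeal y
  rw [hv, NumberField.HeightOneSpectrum.adicAbv_def] at hy ⊢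
  have hne : (v.maximalIdeal.valuation K) y ≠ 0 := (Valuation.ne_zero_iff _).mpr hy0
  rw [WithZeroMulInt.toNNReal_neg_apply _ hne] at hy ⊢
  set m : ℤ := (WithZero.unzero hne).toAdd with hm
  have hq : ((Ideal.absNorm v.maximalIdeal.asIdeal : NNReal) : ℝ) = qv v := by
    unfold qv
    push_cast
    rfl
  push_cast at hy ⊢
  have hq' : ((Ideal.absNorm v.maximalIdeal.asIdeal : ℕ) : ℝ) = qv v := rfl
  rw [hq'] at hy ⊢
  have hm0 : m < 0 := by
    by_contra hcon
    have : (1 : ℝ) ≤ qv v ^ m := one_le_zpow₀ (by linarith) (not_lt.mp hcon)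
    linarith
  rw [← zpow_neg_one]
  exact zpow_le_zpow_right₀ (by linarith) (by omega)

end Pool.Agent.THS.H49
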