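import Pool.Agent.THS.StmtsN

/-!
# THS row HXB: all `x k` have bounded height (helper49)
-/

set_option autoImplicit false

namespace Pool.Agent.THS.H49

open scoped BigOperators
open Pool.Agent.THS

theorem hxb_num (a t s b u : ℝ) (ha : 0 ≤ a) (_ht : 0 ≤ t) (hs : 0 ≤ s) (hb : 0 ≤ b) (hu : 1 ≤ u)
    (h1 : a ^ 2 ≤ u * (t * s)) (h2 : t ^ 3 ≤ u ^ 4 * s ^ 3) (h3 : s ^ 2 ≤ u * b ^ 2) :
    a ≤ u ^ 2 * b := by
  have hu0 : 0 ≤ u := by linarith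
  have e1 : a ^ 6 ≤ u ^ 3 * (t ^ 3 * s ^ 3) := by
    have := pow_le_pow_left₀ (sq_nonneg a) h1 3
    calc a ^ 6 = (a ^ 2) ^ 3 := by ring
      _ ≤ (u * (t * s)) ^ 3 := this
      _ = _ := by ring
  have e2 : u ^ 3 * (t ^ 3 * s ^ 3) ≤ u ^ 3 * ((u ^ 4 * s ^ 3) * s ^ 3) := by
    gcongr
  have e3 : (s ^ 2) ^ 3 ≤ (u * b ^ 2) ^ 3 := pow_le_pow_left₀ (sq_nonneg s) h3 3
  have e4 : u ^ 7 * (s ^ 2) ^ 3 ≤ u ^ 7 * (u * b ^ 2) ^ 3 := by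
    gcongr
  have e5 : u ^ 10 * b ^ 6 ≤ u ^ 12 * b ^ 6 := by
    have : u ^ 10 ≤ u ^ 12 := pow_le_pow_right₀ hu (by norm_num)
    gcongr
  have e6 : a ^ 6 ≤ (u ^ 2 * b) ^ 6 := by
    calc a ^ 6 ≤ u ^ 3 * (t ^ 3 * s ^ 3) := e1
      _ ≤ u ^ 3 * ((u ^ 4 * s ^ 3) * s ^ 3) := e2
      _ = u ^ 7 * (s ^ 2) ^ 3 := by ring
      _ ≤ u ^ 7 * (u * b ^ 2) ^ 3 := e4
      _ = u ^ 10 * b ^ 6 := by ring
      _ ≤ u ^ 12 * b ^ 6 := e5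
      _ = (u ^ 2 * b) ^ 6 := by ring
  exact (pow_le_pow_iff_left₀ ha (by positivity) (by norm_num)).mp e6

theorem hxb (htk : HtkStatement) (hxk : HxkStatement) (htz : HtzStatement) : HxbStatement := by
  intro K _ _ g N α β T x h k
  have h1 := hxk K g N α β T x h k
  have h2 := htk K g N α β T x h (2 * k)
  have h3 := htz K g N α β T x h
  have e16 : (16 : ℝ) ^ (g * Module.finrank ℚ K) = (2 ^ (g * Module.finrank ℚ K)) ^ 4 := by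
    rw [show (16 : ℝ) = 2 ^ 4 by norm_num, ← pow_mul, ← pow_mul, mul_comm 4]
  have e4 : (4 : ℝ) ^ (g * Module.finrank ℚ K) = (2 ^ (g * Module.finrank ℚ K)) ^ 2 := by
    rw [show (4 : ℝ) = 2 ^ 2 by norm_num, ← pow_mul, ← pow_mul, mul_comm 2]
  rw [e16] at h2
  rw [e4]
  exact hxb_num _ _ _ _ _ (Height.mulHeight_pos _).le (Height.mulHeight_pos _).le
    (Height.mulHeight_pos _).le (Height.mulHeight_pos _).le (one_le_pow₀ (by norm_num)) h1 h2 h3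

end Pool.Agent.THS.H49
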