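import Pool.Agent.THS.StmtsN

/-!
# THS rows LAR and HTZ (helper49)
-/

set_option autoImplicit false

namespace Pool.Agent.THS.H49

open scoped BigOperators
open Pool.Agent.THS

theorem le_nv {K ι : Type} [Field K] [Finite ι] (v : AbsoluteValue K ℝ) (x : ι → K) (i : ι) :
    v (x i) ≤ nv v x :=
  le_ciSup (f := fun i => v (x i)) (Set.finite_range _).bddAbove i

theorem ex_nv {K ι : Type} [Field K] [Finite ι] [Nonempty ι] (v : AbsoluteValue K ℝ)
    (x : ι → K) : ∃ i, v (x i) = nv v x :=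
  exists_eq_ciSup_of_finite (f := fun i => v (x i))

theorem nv_nonneg {K ι : Type} [Field K] [Finite ι] [Nonempty ι] (v : AbsoluteValue K ℝ)
    (x : ι → K) : 0 ≤ nv v x := by
  obtain ⟨i, hi⟩ := ex_nv v x
  rw [← hi]
  exact v.nonneg _

theorem v_sgn {K : Type} [Field K] (v : AbsoluteValue K ℝ) {g : ℕ} (b c : Fin g → ZMod 2) :
    v ((sgn b c : ℤ) : K) = 1 := by
  unfold sgn
  push_cast
  rw [map_pow, v.map_neg, map_one, one_pow]

theorem sgn_comm {g : ℕ} (b c : Fin g → ZMod 2) : sgn b c = sgn c b := by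
  unfold sgn
  congr 1
  exact Finset.sum_congr rfl fun i _ => mul_comm _ _

theorem sgn_sq {g : ℕ} (b c : Fin g → ZMod 2) : sgn b c * sgn b c = 1 := by
  unfold sgn
  rw [← mul_pow]
  norm_num

theorem card_A (g : ℕ) : Fintype.card (Fin g → ZMod 2) = 2 ^ g := by
  rw [Fintype.card_fun, ZMod.card, Fintype.card_fin]

/-- archimedean bound for a sum with signs -/
theorem v_sum_le {K : Type} [Field K] (v : AbsoluteValue K ℝ) {g : ℕ} (b : Fin g → ZMod 2)
    (f : (Fin g → ZMod 2) → K) (M : ℝ) (hM : ∀ c, v (f c) ≤ M) :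
    v (∑ c, ((sgn b c : ℤ) : K) * f c) ≤ 2 ^ g * M := by
  have h1 : v (∑ c, ((sgn b c : ℤ) : K) * f c) ≤ ∑ c, v (((sgn b c : ℤ) : K) * f c) :=
    v.sum_le _ _
  have h2 : ∑ c : Fin g → ZMod 2, v (((sgn b c : ℤ) : K) * f c) ≤
      ∑ _c : Fin g → ZMod 2, M := by
    refine Finset.sum_le_sum fun c _ => ?_
    rw [map_mul, v_sgn, one_mul]
    exact hM c
  rw [Finset.sum_const, Finset.card_univ, card_A, nsmul_eq_mul] at h2
  push_cast at h2
  exact h1.trans h2

theorem lar (ort : OrtStatement) : LarStatement := by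
  classical
  intro K _ v g S D Z h2 hQ
  set Q : (Fin g → ZMod 2) → K := fun b => ∑ c, ((sgn b c : ℤ) : K) * S c ^ 2 with hQdef
  obtain ⟨c0, hc0⟩ := ex_nv v S
  obtain ⟨b1, hb1⟩ := ex_nv v Q
  have hinv : ∑ b, ((sgn c0 b : ℤ) : K) * Q b = 2 ^ g * S c0 ^ 2 := by
    have e1 : ∑ b, ((sgn c0 b : ℤ) : K) * Q b =
        ∑ d, ((∑ b, sgn b c0 * sgn b d : ℤ) : K) * S d ^ 2 := by
      simp only [hQdef, Finset.mul_sum]
      rw [Finset.sum_comm]
      refine Finset.sum_congr rfl fun d _ => ?_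
      push_cast
      rw [Finset.sum_mul]
      refine Finset.sum_congr rfl fun b _ => ?_
      rw [sgn_comm c0 b]
      ring
    rw [e1, Finset.sum_eq_single c0]
    · rw [ort g c0 c0, if_pos rfl]
      push_cast
      ring
    · intro d _ hd
      rw [ort g c0 d, if_neg (Ne.symm hd)]
      push_cast
      ring
    · intro h
      exact absurd (Finset.mem_univ _) h
  have h3 : v (∑ b, ((sgn c0 b : ℤ) : K) * Q b) ≤ 2 ^ g * nv v Q :=
    v_sum_le v c0 Q _ fun b => le_nv v Q b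
  rw [hinv, map_mul, map_pow, map_pow, h2, hc0] at h3
  have h2g : (0 : ℝ) < 2 ^ g := by positivity
  have h4 : nv v S ^ 2 ≤ nv v Q := le_of_mul_le_mul_left h3 h2g
  have h5 : nv v Q ^ 2 ≤ (2 ^ g * (nv v D * nv v Z)) * (2 ^ g * nv v Z ^ 2) := by
    rw [← hb1, ← map_pow]
    have e := hQ b1
    change Q b1 ^ 2 = _ at e
    rw [e, map_mul]
    refine mul_le_mul ?_ ?_ (v.nonneg _) ?_
    · refine v_sum_le v b1 _ _ fun c => ?_
      rw [map_mul]
      exact mul_le_mul (le_nv v D c) (le_nv v Z c) (v.nonneg _) (nv_nonneg v D)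
    · refine v_sum_le v b1 _ _ fun c => ?_
      rw [map_pow]
      exact pow_le_pow_left₀ (v.nonneg _) (le_nv v Z c) 2
    · have := nv_nonneg v D
      have := nv_nonneg v Z
      positivity
  have h6 : nv v S ^ 4 ≤ nv v Q ^ 2 := by
    have := pow_le_pow_left₀ (sq_nonneg (nv v S)) h4 2
    calc nv v S ^ 4 = (nv v S ^ 2) ^ 2 := by ring
      _ ≤ _ := this
  refine h6.trans (h5.trans (le_of_eq ?_))
  have e4 : (4 : ℝ) ^ g = 2 ^ g * 2 ^ g := by
    rw [← mul_pow]
    norm_num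
  rw [e4]
  ring

theorem htz (hcp : HcpStatement) : HtzStatement := by
  classical
  intro K _ _ g N α β T x h
  obtain ⟨l, hl, hrel⟩ := h.rel 0 0
  have hkey : ∀ d, T 0 d * T 0 d = l * ∑ b, ((sgn b d : ℤ) : K) * (x 0 (0, b) * x 0 (0, b)) := by
    intro d
    have e := hrel 0 d
    rw [add_zero, sub_zero, zero_add] at e
    exact e
  have hX : ∀ i : Fin 2, (![T 0, T 0] : Fin 2 → (Fin g → ZMod 2) → K) i ≠ 0 := by
    intro i
    fin_cases i
    · exact h.T0 0
    · exact h.T0 0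
  have hY : ∀ i : Fin 2,
      (![x 0, x 0] : Fin 2 → (Fin g → ZMod 2) × (Fin g → ZMod 2) → K) i ≠ 0 := by
    intro i
    fin_cases i
    · exact h.x0 0
    · exact h.x0 0
  have hm := hcp K (Fin g → ZMod 2) ((Fin g → ZMod 2) × (Fin g → ZMod 2)) 2 2 1 0 (2 ^ g) l
    ![T 0, T 0] ![x 0, x 0] (by positivity) hl hX hY ?_ ?_
  · rw [Fin.prod_univ_two, Fin.prod_univ_two] at hm
    simp only [Matrix.cons_val_zero, Matrix.cons_val_one, pow_zero, mul_one] at hm
    rw [← pow_mul] at hm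
    rw [pow_two, pow_two]
    exact hm
  · intro v
    rw [Fin.prod_univ_two, Fin.prod_univ_two]
    simp only [Matrix.cons_val_zero, Matrix.cons_val_one, pow_one]
    obtain ⟨c, hc⟩ := ex_nv v.val (T 0)
    have e : nv v.val (T 0) * nv v.val (T 0) = v.val (T 0 c * T 0 c) := by
      rw [map_mul, hc]
    rw [e, hkey c, map_mul]
    have hb := v_sum_le v.val c (fun b => x 0 (0, b) * x 0 (0, b))
      (nv v.val (x 0) * nv v.val (x 0)) (fun b => by
        rw [map_mul]
        exact mul_le_mul (le_nv _ _ _) (le_nv _ _ _) (v.val.nonneg _) (nv_nonneg _ _))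
    have e2 : ∑ b, ((sgn b c : ℤ) : K) * (x 0 (0, b) * x 0 (0, b)) =
        ∑ b, ((sgn c b : ℤ) : K) * (x 0 (0, b) * x 0 (0, b)) :=
      Finset.sum_congr rfl fun b _ => by rw [sgn_comm]
    rw [e2]
    have h0 : (0 : ℝ) ≤ v.val l := v.val.nonneg _
    calc v.val l * v.val (∑ b, ((sgn c b : ℤ) : K) * (x 0 (0, b) * x 0 (0, b)))
        ≤ v.val l * (2 ^ g * (nv v.val (x 0) * nv v.val (x 0))) :=
          mul_le_mul_of_nonneg_left hb h0
      _ = 2 ^ g * v.val l * (nv v.val (x 0) * nv v.val (x 0)) := by ring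
  · intro v
    rw [Fin.prod_univ_two, Fin.prod_univ_two]
    simp only [Matrix.cons_val_zero, Matrix.cons_val_one, pow_one, pow_zero, one_mul]
    obtain ⟨c, hc⟩ := ex_nv v.val (T 0)
    have e : nv v.val (T 0) * nv v.val (T 0) = v.val (T 0 c * T 0 c) := by
      rw [map_mul, hc]
    rw [e, hkey c, map_mul]
    have hna : IsNonarchimedean v.val := fun a b => NumberField.FinitePlace.add_le v a b
    have hb : v.val (∑ b, ((sgn b c : ℤ) : K) * (x 0 (0, b) * x 0 (0, b))) ≤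
        nv v.val (x 0) * nv v.val (x 0) := by
      refine (hna.apply_sum_le (s := Finset.univ)).trans ?_
      refine Real.iSup_le (fun b => ?_) (mul_nonneg (nv_nonneg _ _) (nv_nonneg _ _))
      rw [map_mul, v_sgn, one_mul, map_mul]
      exact mul_le_mul (le_nv _ _ _) (le_nv _ _ _) (v.val.nonneg _) (nv_nonneg _ _)
    exact mul_le_mul_of_nonneg_left hb (v.val.nonneg _)

end Pool.Agent.THS.H49
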