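import Pool.Agent.THS.StmtsB

/-!
# THS row MNN: a matrix of small length modulo `ε` has a small determinant (helper49)
-/

set_option autoImplicit false

namespace Pool.Agent.THS.H49

open scoped BigOperators
open Pool.Agent.THS

theorem v_sign {K : Type} [Field K] (v : AbsoluteValue K ℝ) (s : ℤˣ) : v ((s : ℤ) : K) = 1 := by
  rcases Int.units_eq_one_or s with h | h
  · rw [h]; simp
  · rw [h]; simp

/-- the number of the columns on the right which are matched with a row on the right -/
theorem card_right {c r : ℕ} (σ : Equiv.Perm (Fin c ⊕ Fin r)) :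
    r - c ≤ (Finset.univ.filter fun j : Fin r => (σ (Sum.inr j)).isRight = true).card := by
  classical
  have h1 : (Finset.univ.filter fun j : Fin r => ¬ (σ (Sum.inr j)).isRight = true).card ≤ c := by
    have h2 : (Finset.univ.filter fun j : Fin r => ¬ (σ (Sum.inr j)).isRight = true).card ≤
        (Finset.univ.map (Function.Embedding.inl : Fin c ↪ Fin c ⊕ Fin r)).card := by
      refine Finset.card_le_card_of_injOn (fun j => σ (Sum.inr j)) ?_ ?_
      · intro j hj
        rw [Finset.mem_coe, Finset.mem_filter] at hj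
        rw [Finset.mem_coe, Finset.mem_map]
        rcases hs : σ (Sum.inr j) with a | b
        · exact ⟨a, Finset.mem_univ _, hs.symm⟩
        · rw [hs] at hj
          exact absurd rfl hj.2
      · intro j _ j' _ h
        exact Sum.inr_injective (σ.injective h)
    rwa [Finset.card_map, Finset.card_univ, Fintype.card_fin] at h2
  have h3 := Finset.card_filter_add_card_filter_not (s := (Finset.univ : Finset (Fin r)))
    (fun j => (σ (Sum.inr j)).isRight = true)
  rw [Finset.card_univ, Fintype.card_fin] at h3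
  omega

theorem det_block {K : Type} [Field K] (v : AbsoluteValue K ℝ) (r c : ℕ)
    (Z : Matrix (Fin c ⊕ Fin r) (Fin c ⊕ Fin r) K) (ε : ℝ) (hv : IsNonarchimedean v)
    (h0 : 0 ≤ ε) (h1 : ε ≤ 1) (hZ : ∀ x y, v (Z x y) ≤ 1)
    (hE : ∀ i j, v (Z (Sum.inr i) (Sum.inr j)) ≤ ε) : v Z.det ≤ ε ^ (r - c) := by
  classical
  rw [Matrix.det_apply']
  refine (hv.apply_sum_le (s := Finset.univ)).trans (Real.iSup_le ?_ (by positivity))
  rintro ⟨σ, -⟩
  rw [map_mul, v_sign, one_mul, map_prod, Fintype.prod_sum_type]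
  have e1 : ∏ a : Fin c, v (Z (σ (Sum.inl a)) (Sum.inl a)) ≤ 1 :=
    Finset.prod_le_one (fun _ _ => v.nonneg _) fun _ _ => hZ _ _
  have e2 : ∏ j : Fin r, v (Z (σ (Sum.inr j)) (Sum.inr j)) ≤
      ∏ j : Fin r, (if (σ (Sum.inr j)).isRight = true then ε else 1) := by
    refine Finset.prod_le_prod (fun _ _ => v.nonneg _) fun j _ => ?_
    split_ifs with h
    · rcases hs : σ (Sum.inr j) with a | b
      · rw [hs] at h
        exact absurd h (by simp)
      · exact hE _ _
    · exact hZ _ _
  rw [Finset.prod_ite, Finset.prod_const, Finset.prod_const, one_pow, mul_one] at e2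
  have e3 : ε ^ (Finset.univ.filter fun j : Fin r =>
      (σ (Sum.inr j)).isRight = true).card ≤ ε ^ (r - c) :=
    pow_le_pow_of_le_one h0 h1 (card_right _)
  have e4 : 0 ≤ ∏ j : Fin r, v (Z (σ (Sum.inr j)) (Sum.inr j)) :=
    Finset.prod_nonneg fun _ _ => v.nonneg _
  calc (∏ a : Fin c, v (Z (σ (Sum.inl a)) (Sum.inl a))) *
        ∏ j : Fin r, v (Z (σ (Sum.inr j)) (Sum.inr j))
      ≤ 1 * ∏ j : Fin r, v (Z (σ (Sum.inr j)) (Sum.inr j)) :=
        mul_le_mul_of_nonneg_right e1 e4
    _ = ∏ j : Fin r, v (Z (σ (Sum.inr j)) (Sum.inr j)) := one_mul _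
    _ ≤ _ := e2.trans e3

theorem mnn : MnnStatement := by
  classical
  intro K _ v r c M A B t ε hv h0 h1 hA hB hM
  by_cases ht : t = 0
  · have hM0 : M = 0 := by
      ext i j
      have h2 := hM i j
      rw [ht, zero_mul, sub_zero, map_zero, mul_zero] at h2
      exact v.eq_zero.mp (le_antisymm h2 (v.nonneg _))
    rcases Nat.eq_zero_or_pos r with hr | hr
    · subst hr
      simp
    · have : Nonempty (Fin r) := ⟨⟨0, hr⟩⟩
      rw [hM0, Matrix.det_zero, map_zero]
      have := v.nonneg t
      positivity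
  · have hvt : 0 < v t := v.pos ht
    set E : Matrix (Fin r) (Fin r) K :=
      Matrix.of fun i j => t⁻¹ * (M i j - t * ∑ s, A s i * B s j) with hEdef
    set Z : Matrix (Fin c ⊕ Fin r) (Fin c ⊕ Fin r) K :=
      Matrix.fromBlocks 1 (Matrix.of fun s j => B s j) (Matrix.of fun i s => -(A s i)) E with hZdef
    have hEv : ∀ i j, v (E i j) ≤ ε := by
      intro i j
      rw [hEdef, Matrix.of_apply, map_mul, map_inv₀]
      calc (v t)⁻¹ * v (M i j - t * ∑ s, A s i * B s j) ≤ (v t)⁻¹ * (ε * v t) :=
            mul_le_mul_of_nonneg_left (hM i j) (inv_nonneg.mpr hvt.le)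
        _ = ε := by field_simp
    have hdet : Z.det = (t⁻¹ • M).det := by
      rw [hZdef, Matrix.det_fromBlocks_one₁₁]
      congr 1
      ext i j
      rw [Matrix.sub_apply, Matrix.mul_apply, Matrix.smul_apply, hEdef, Matrix.of_apply]
      simp only [Matrix.of_apply, smul_eq_mul, neg_mul, Finset.sum_neg_distrib, sub_neg_eq_add]
      rw [mul_sub, ← mul_assoc, inv_mul_cancel₀ ht, one_mul]
      ring
    have hb := det_block v r c Z ε hv h0 h1 (by
      intro x y
      rcases x with a | i <;> rcases y with b | j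
      · rw [hZdef, Matrix.fromBlocks_apply₁₁, Matrix.one_apply]
        split_ifs <;> simp
      · rw [hZdef, Matrix.fromBlocks_apply₁₂, Matrix.of_apply]
        exact hB _ _
      · rw [hZdef, Matrix.fromBlocks_apply₂₁, Matrix.of_apply, v.map_neg]
        exact hA _ _
      · rw [hZdef, Matrix.fromBlocks_apply₂₂]
        exact (hEv i j).trans h1) (by
      intro i j
      rw [hZdef, Matrix.fromBlocks_apply₂₂]
      exact hEv i j)
    rw [hdet, Matrix.det_smul, Fintype.card_fin, map_mul, map_pow, map_inv₀] at hb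
    have h2 : v M.det = v t ^ r * ((v t)⁻¹ ^ r * v M.det) := by
      rw [← mul_assoc, ← mul_pow, mul_inv_cancel₀ hvt.ne', one_pow, one_mul]
    rw [h2]
    exact mul_le_mul_of_nonneg_left hb (by positivity)

end Pool.Agent.THS.H49
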