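import Pool.Agent.THS.StmtsB

/-!
# THS row MNV: all minors vanish (helper49)
-/

set_option autoImplicit false

namespace Pool.Agent.THS.H49

open scoped BigOperators
open Pool.Agent.THS

theorem cube_root (y : ℝ) (hy : 0 ≤ y) : ∃ b : ℝ, 0 ≤ b ∧ b ^ 3 = y := by
  refine ⟨y ^ ((1 : ℝ) / 3), Real.rpow_nonneg hy _, ?_⟩
  rw [← Real.rpow_natCast, ← Real.rpow_mul hy]
  norm_num

theorem nv_nn {K ι : Type} [Field K] (v : AbsoluteValue K ℝ) (x : ι → K) : 0 ≤ nv v x :=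
  Real.iSup_nonneg fun i => v.nonneg (x i)

/-- from the cubes of the entries to the cube of the determinant -/
theorem det3 (dbd : DbdStatement) {K : Type} [Field K] (v : AbsoluteValue K ℝ) (r : ℕ)
    (M : Matrix (Fin r) (Fin r) K) (y : ℝ) (hy : 0 ≤ y) (h : ∀ i j, v (M i j) ^ 3 ≤ y) :
    v M.det ^ 3 ≤ (r.factorial : ℝ) ^ 3 * y ^ r ∧ (IsNonarchimedean v → v M.det ^ 3 ≤ y ^ r) := by
  obtain ⟨b, hb, hb3⟩ := cube_root y hy
  have h1 : ∀ i j, v (M i j) ≤ b := fun i j =>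
    (pow_le_pow_iff_left₀ (v.nonneg _) hb (by norm_num)).mp ((h i j).trans (le_of_eq hb3.symm))
  obtain ⟨h2, h3⟩ := dbd K v r M b h1
  constructor
  · have h4 := pow_le_pow_left₀ (v.nonneg _) h2 3
    refine h4.trans (le_of_eq ?_)
    rw [← hb3, mul_pow, ← pow_mul, ← pow_mul, mul_comm r 3]
  · intro hna
    have h4 := pow_le_pow_left₀ (v.nonneg _) (h3 hna) 3
    refine h4.trans (le_of_eq ?_)
    rw [← hb3, ← pow_mul, ← pow_mul, mul_comm r 3]

theorem mnv (loc : LocStatement) (fbd : FbdStatement) (dbd : DbdStatement) (mnn : MnnStatement)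
    (qvr : QvrStatement) (dpf : DpfStatement) : MnvStatement := by
  classical
  intro g d σ C
  obtain ⟨L, hL⟩ : ∃ L : ℕ, 10 * |σ| + 2 ≤ (L : ℝ) := by
    refine ⟨⌈10 * |σ| + 2⌉₊, Nat.le_ceil _⟩
  obtain ⟨c, hloc⟩ := loc g L
  obtain ⟨r, hr⟩ : ∃ r : ℕ, r = 2 * c + 2 := ⟨_, rfl⟩
  obtain ⟨C1, hC1⟩ : ∃ C1 : ℝ, C1 = (r.factorial : ℝ) ^ 3 * (4 ^ (5 * g)) ^ r := ⟨_, rfl⟩
  obtain ⟨m, hm⟩ : ∃ m : ℕ, m = 10 * g * r := ⟨_, rfl⟩
  obtain ⟨e, he⟩ : ∃ e : ℕ, e = 3 * (L * (r - c)) := ⟨_, rfl⟩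
  have hC1one : 1 ≤ C1 := by
    rw [hC1]
    have e1 : (1 : ℝ) ≤ (r.factorial : ℝ) := by
      have e0 : 1 ≤ r.factorial := Nat.one_le_iff_ne_zero.mpr (Nat.factorial_ne_zero r)
      exact_mod_cast e0
    have e2 : (1 : ℝ) ≤ (r.factorial : ℝ) ^ 3 := one_le_pow₀ e1
    have e3 : (1 : ℝ) ≤ (4 ^ (5 * g)) ^ r := one_le_pow₀ (one_le_pow₀ (by norm_num))
    exact one_le_mul_of_one_le_of_one_le e2 e3
  refine ⟨r, |d * Real.log (C1 * 2 ^ m) + 15 * r * C|, by omega, ?_⟩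
  intro K _ _ hd N α β T x hT S hS2 hSP hH hLam u a hu p q
  by_contra hD
  obtain ⟨M, hM⟩ : ∃ M : Matrix (Fin r) (Fin r) K,
    M = Matrix.of fun i j => ff β T u a (p i + q j) := ⟨_, rfl⟩
  rw [← hM] at hD
  have hMij : ∀ i j, M i j = ff β T u a (p i + q j) := fun i j => by rw [hM, Matrix.of_apply]
  have hbd := fun k => fbd K g N α β T x u a hT.toNSeq hu k
  -- infinite places
  have hinf : ∀ v : NumberField.InfinitePlace K,
      v.val M.det ^ 3 ≤ C1 * nv v.val (T 0) ^ (15 * r) := by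
    intro v
    have hn := nv_nn v.val (T 0)
    have h1 := (det3 dbd v.val r M (4 ^ (5 * g) * nv v.val (T 0) ^ 15) (by positivity)
      (fun i j => by rw [hMij]; exact (hbd (p i + q j)).1 v)).1
    refine h1.trans (le_of_eq ?_)
    rw [hC1, mul_pow, ← pow_mul (nv v.val (T 0)), mul_assoc]
  -- finite places
  have hfin : ∀ v : NumberField.FinitePlace K,
      v.val 2 ^ m * v.val M.det ^ 3 ≤ nv v.val (T 0) ^ (15 * r) := by
    intro v
    have hn := nv_nn v.val (T 0)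
    have h2 : 0 < v.val 2 := v.val.pos two_ne_zero
    have h2' : 0 < v.val 2 ^ (10 * g) := by positivity
    have hna : IsNonarchimedean v.val := fun a b => NumberField.FinitePlace.add_le v a b
    have h1 := (det3 dbd v.val r M (nv v.val (T 0) ^ 15 / v.val 2 ^ (10 * g)) (by positivity)
      (fun i j => by
        rw [hMij, le_div_iff₀ h2', mul_comm]
        exact (hbd (p i + q j)).2 v)).2 hna
    rw [div_pow, ← pow_mul, ← pow_mul, ← hm, le_div_iff₀ (by positivity), mul_comm] at h1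
    exact h1
  have hfS : ∀ v ∈ S, qv v ^ e * (v.val 2 ^ m * v.val M.det ^ 3) ≤
      nv v.val (T 0) ^ (15 * r) := by
    intro v hv
    have hn := nv_nn v.val (T 0)
    have hna : IsNonarchimedean v.val := fun a b => NumberField.FinitePlace.add_le v a b
    obtain ⟨hq2, hqy⟩ := qvr K v
    have hqpos : 0 < qv v := by linarith
    have h21 : v.val 2 = 1 := hS2 v hv
    have hρ0 : 0 < (qv v)⁻¹ := inv_pos.mpr hqpos
    have hρ1 : (qv v)⁻¹ < 1 := inv_lt_one_of_one_lt₀ (by linarith)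
    obtain ⟨t, A, B, ht, hA, hB, hAB⟩ := hloc K v.val (qv v)⁻¹ N α β T x u a hna h21 hρ0 hρ1 hqy hT
      (hSP v hv) hu
    have h1 := mnn K v.val r c M (fun s i => A s (p i)) (fun s j => B s (q j)) t ((qv v)⁻¹ ^ L)
      hna (by positivity) (pow_le_one₀ hρ0.le hρ1.le) (fun s i => hA s _) (fun s j => hB s _)
      (fun i j => by
        rw [hMij, ht]
        exact hAB (p i) (q j))
    rw [h21, one_pow, one_mul]
    have h3 := pow_le_pow_left₀ (v.val.nonneg _) h1 3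
    have h4 : (v.val t ^ r * ((qv v)⁻¹ ^ L) ^ (r - c)) ^ 3 =
        nv v.val (T 0) ^ (15 * r) * (qv v ^ e)⁻¹ := by
      rw [ht, mul_pow, ← pow_mul, ← pow_mul, ← pow_mul, ← pow_mul, he, inv_pow]
      congr 2
      · ring
      · congr 1
        ring
    rw [h4] at h3
    have hqe : 0 < qv v ^ e := by positivity
    calc qv v ^ e * v.val M.det ^ 3 ≤ qv v ^ e * (nv v.val (T 0) ^ (15 * r) * (qv v ^ e)⁻¹) :=
          mul_le_mul_of_nonneg_left h3 hqe.le
      _ = nv v.val (T 0) ^ (15 * r) := by field_simp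
  have hdpf := dpf K (Fin g → ZMod 2) (T 0) M.det m r e C1 S (hT.T0 0) hD (by linarith) hinf hfin
    hfS
  -- logarithms
  have hqpos : ∀ v : NumberField.FinitePlace K, 0 < qv v := fun v => by
    have := (qvr K v).1
    linarith
  have hHpos : 0 < Height.mulHeight (T 0) := Height.mulHeight_pos _
  have hlog := Real.log_le_log (Finset.prod_pos fun v _ => pow_pos (hqpos v) e) hdpf
  rw [Real.log_prod (fun v _ => (pow_pos (hqpos v) e).ne'),
    Real.log_mul (by positivity) (by positivity), Real.log_pow, Real.log_pow] at hlog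
  have hsum : ∑ v ∈ S, Real.log (qv v ^ e) = e * ∑ v ∈ S, lN v := by
    rw [Finset.mul_sum]
    refine Finset.sum_congr rfl fun v _ => ?_
    rw [Real.log_pow]
    rfl
  rw [hsum] at hlog
  obtain ⟨Λ, hΛ⟩ : ∃ Λ : ℝ, Λ = ∑ v ∈ S, lN v := ⟨_, rfl⟩
  rw [← hΛ] at hlog hH hLam
  obtain ⟨l, hl⟩ : ∃ l : ℝ, l = Real.log (C1 * 2 ^ m) := ⟨_, rfl⟩
  have hl0 : 0 ≤ l := by
    rw [hl]
    refine Real.log_nonneg (one_le_mul_of_one_le_of_one_le hC1one (one_le_pow₀ (by norm_num)))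
  rw [← hl] at hlog hLam
  have hd' : (Module.finrank ℚ K : ℝ) ≤ d := by exact_mod_cast hd
  have h1 : (Module.finrank ℚ K : ℝ) * l ≤ d * l := mul_le_mul_of_nonneg_right hd' hl0
  have hrc : r - c = c + 2 := by omega
  have hr' : (r : ℝ) = 2 * c + 2 := by rw [hr]; push_cast; ring
  have hee : (e : ℝ) = 3 * (L * (c + 2)) := by
    rw [he, hrc]
    push_cast
    ring
  have hr0 : (0 : ℝ) ≤ 15 * r := by positivity
  have h2 : (e : ℝ) * Λ ≤ d * l + 15 * r * (σ * Λ + C) := by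
    have h3 : ((15 * r : ℕ) : ℝ) * Real.log (Height.mulHeight (T 0)) ≤
        15 * r * (σ * Λ + C) := by
      push_cast
      exact mul_le_mul_of_nonneg_left hH hr0
    linarith
  have hc0 : (0 : ℝ) ≤ c := Nat.cast_nonneg c
  have habs : σ ≤ |σ| := le_abs_self σ
  have habs0 : 0 ≤ |σ| := abs_nonneg σ
  have h4 : (1 : ℝ) ≤ e - 15 * r * σ := by
    rw [hee, hr']
    have e1 : 3 * ((10 * |σ| + 2) * ((c : ℝ) + 2)) ≤ 3 * (L * (c + 2)) := by
      have : (0 : ℝ) ≤ c + 2 := by linarith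
      nlinarith
    have e2 : 15 * (2 * (c : ℝ) + 2) * σ ≤ 15 * (2 * (c : ℝ) + 2) * |σ| :=
      mul_le_mul_of_nonneg_left habs (by positivity)
    nlinarith
  have hΛ0 : 0 < Λ := lt_of_le_of_lt (abs_nonneg _) hLam
  have h5 : d * l + 15 * r * C < Λ := lt_of_le_of_lt (le_abs_self _) hLam
  have h6 : Λ ≤ (e - 15 * r * σ) * Λ := le_mul_of_one_le_left hΛ0.le h4
  nlinarith

end Pool.Agent.THS.H49
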