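import Pool.Agent.THS.StmtsN

/-!
# THS row NUF: Northcott, uniform in the field (helper49)
-/

set_option autoImplicit false

namespace Pool.Agent.THS.H49

open scoped BigOperators
open Pool.Agent.THS Polynomial Set Module

theorem one_le_fprod {ι : Type} (s : Finset ι) (f : ι → ℝ) (h : ∀ i ∈ s, 1 ≤ f i) :
    1 ≤ ∏ i ∈ s, f i :=
  Finset.prod_induction f (fun r => 1 ≤ r) (fun _ _ ha hb => one_le_mul_of_one_le_of_one_le ha hb)
    le_rfl h

theorem place_le_height {K : Type} [Field K] [NumberField K] (v : NumberField.InfinitePlace K)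
    (x : K) : v x ≤ Height.mulHeight₁ x := by
  classical
  rw [NumberField.mulHeight₁_eq]
  have h1 : 1 ≤ ∏ᶠ w : NumberField.FinitePlace K, max (w x) 1 :=
    one_le_finprod fun _ => le_max_right _ _
  have h2 : v x ≤ ∏ w : NumberField.InfinitePlace K, max (w x) 1 ^ w.mult := by
    have h3 : v x ≤ max (v x) 1 ^ v.mult :=
      (le_max_left _ _).trans (le_self_pow₀ (le_max_right _ _) v.mult_ne_zero)
    refine h3.trans ?_
    rw [← Finset.prod_erase_mul _ _ (Finset.mem_univ v)]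
    have h4 : 1 ≤ ∏ w ∈ Finset.univ.erase v, max (w x) 1 ^ w.mult :=
      one_le_fprod _ _ fun w _ => one_le_pow₀ (le_max_right _ _)
    exact le_mul_of_one_le_left (by positivity) h4
  have h5 : 0 ≤ ∏ w : NumberField.InfinitePlace K, max (w x) 1 ^ w.mult := by positivity
  exact h2.trans (le_mul_of_one_le_right h5 h1)

/-- the complex roots of the integer polynomials of degree at most `d` and height at most `C` -/
def RR (d C : ℕ) : Set ℂ :=
  ⋃ (f : ℤ[X]) (_ : f.natDegree ≤ d ∧ ∀ i, f.coeff i ∈ Icc (-(C : ℤ)) C),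
    ((f.map (algebraMap ℤ ℂ)).roots.toFinset : Set ℂ)

theorem RR_finite (d C : ℕ) : (RR d C).Finite :=
  bUnion_roots_finite (algebraMap ℤ ℂ) d (finite_Icc (-(C : ℤ)) C)

/-- the bound for the coefficients -/
noncomputable def CC (d : ℕ) (B : ℝ) : ℕ := Nat.ceil (max B 1 ^ d * 2 ^ d)

theorem mem_RR {K : Type} [Field K] [NumberField K] (d : ℕ) (hd : finrank ℚ K ≤ d) (B : ℝ) (a : K)
    (hint : IsIntegral ℤ a) (hB : ∀ ψ : K →+* ℂ, ‖ψ a‖ ≤ B) (φ : K →+* ℂ) :
    φ a ∈ RR d (CC d B) := by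
  unfold RR
  simp_rw [mem_iUnion]
  have hmap := minpoly.isIntegrallyClosed_eq_field_fractions' ℚ hint
  refine ⟨minpoly ℤ a, ⟨?_, fun i => ?_⟩, ?_⟩
  · rw [← (minpoly.monic hint).natDegree_map (algebraMap ℤ ℚ), ← hmap]
    exact (minpoly.natDegree_le a).trans hd
  · rw [mem_Icc, ← abs_le, ← @Int.cast_le ℝ]
    have h1 := NumberField.Embeddings.coeff_bdd_of_norm_le hB i
    have h2 : max B 1 ^ finrank ℚ K * ((finrank ℚ K).choose (finrank ℚ K / 2) : ℝ) ≤
        max B 1 ^ d * 2 ^ d := by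
      have e1 : max B 1 ^ finrank ℚ K ≤ max B 1 ^ d := pow_le_pow_right₀ (le_max_right _ _) hd
      have e2 : ((finrank ℚ K).choose (finrank ℚ K / 2) : ℝ) ≤ 2 ^ d := by
        have e3 : (finrank ℚ K).choose (finrank ℚ K / 2) ≤ 2 ^ d :=
          (Nat.choose_le_two_pow _ _).trans (Nat.pow_le_pow_right (by norm_num) hd)
        exact_mod_cast e3
      have e4 : (0 : ℝ) ≤ max B 1 ^ d := by positivity
      exact mul_le_mul e1 e2 (by positivity) e4
    have h3 : ((|(minpoly ℤ a).coeff i| : ℤ) : ℝ) = ‖(minpoly ℚ a).coeff i‖ := by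
      rw [hmap, coeff_map, eq_intCast, Int.norm_cast_rat, Int.norm_eq_abs, Int.cast_abs]
    rw [h3]
    exact (h1.trans h2).trans (Nat.le_ceil _)
  · rw [Finset.mem_coe, Multiset.mem_toFinset, mem_roots']
    constructor
    · exact ((minpoly.monic hint).map (algebraMap ℤ ℂ)).ne_zero
    · rw [IsRoot.def, eval_map, show (algebraMap ℤ ℂ) = φ.comp (algebraMap ℤ K) from
        RingHom.ext_int _ _, ← hom_eval₂]
      have h1 : eval₂ (algebraMap ℤ K) a (minpoly ℤ a) = 0 := minpoly.aeval ℤ a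
      rw [h1, map_zero]

theorem nuf : NufStatement := by
  classical
  intro d H
  set F : Set ℂ := ⋃ n ∈ Finset.Icc 1 ⌊H⌋₊, (fun r : ℂ => r / n) '' RR d (CC d (H * H)) with hF
  have hFf : F.Finite := by
    rw [hF]
    exact Set.Finite.biUnion (Finset.finite_toSet _) fun n _ => (RR_finite _ _).image _
  refine ⟨F.ncard, fun K _ _ hd => ⟨NumberField.finite_setOfPred_mulHeight₁_le K H, ?_⟩⟩
  obtain ⟨φ⟩ : Nonempty (K →+* ℂ) := inferInstance
  refine Set.ncard_le_ncard_of_injOn φ ?_ φ.injective.injOn hFf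
  intro x hx
  have hx' : Height.mulHeight₁ x ≤ H := hx
  obtain ⟨n, hn0, hn1, hint⟩ := NumberField.exists_nat_le_mulHeight₁ x
  have hH : (n : ℝ) ≤ H := hn1.trans hx'
  have hH0 : 0 ≤ H := (Nat.cast_nonneg n).trans hH
  have hmem := mem_RR d hd (H * H) ((n : K) * x) hint (fun ψ => by
    rw [map_mul, norm_mul, map_natCast, Complex.norm_natCast]
    have h1 : ‖ψ x‖ ≤ H := by
      have h2 := place_le_height (NumberField.InfinitePlace.mk ψ) x
      rw [NumberField.InfinitePlace.apply] at h2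
      exact h2.trans hx'
    exact mul_le_mul hH h1 (norm_nonneg _) hH0) φ
  rw [hF, mem_iUnion₂]
  refine ⟨n, ?_, φ ((n : K) * x), hmem, ?_⟩
  · rw [Finset.mem_Icc]
    exact ⟨Nat.one_le_iff_ne_zero.mpr hn0, Nat.le_floor hH⟩
  · have hn' : (n : ℂ) ≠ 0 := by exact_mod_cast hn0
    show φ ((n : K) * x) / (n : ℂ) = φ x
    rw [map_mul, map_natCast, mul_div_cancel_left₀ _ hn']

end Pool.Agent.THS.H49
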