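import Pool.Agent.THS.StmtsB

/-!
# THS row PER: the period of a function with vanishing minors (helper49)
-/

set_option autoImplicit false

namespace Pool.Agent.THS.H49

open scoped BigOperators
open Pool.Agent.THS

section per

variable {K : Type} [Field K]

/-- the translate by `p` -/
def tr (f : ℤ → K) (p : ℤ) : ℤ → K := fun q => f (p + q)

/-- the span of the translates -/
def VV (f : ℤ → K) : Submodule K (ℤ → K) := Submodule.span K (Set.range (tr f))

/-- the shift -/
def Sh : (ℤ → K) →ₗ[K] (ℤ → K) := LinearMap.funLeft K K (fun q : ℤ => q + 1)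

theorem Sh_apply (F : ℤ → K) (q : ℤ) : Sh F q = F (q + 1) := rfl

theorem Sh_maps (f : ℤ → K) : ∀ F ∈ VV f, Sh F ∈ VV f := by
  intro F hF
  have h : VV f ≤ (VV f).comap Sh := by
    refine Submodule.span_le.mpr ?_
    rintro _ ⟨p, rfl⟩
    refine Submodule.subset_span ⟨p + 1, ?_⟩
    funext q
    show f (p + 1 + q) = f (p + (q + 1))
    congr 1
    ring
  exact h hF

/-- the shift on the span -/
def SS (f : ℤ → K) : VV f →ₗ[K] VV f := Sh.restrict (Sh_maps f)

theorem SS_apply (f : ℤ → K) (v : VV f) (q : ℤ) : (SS f v : ℤ → K) q = (v : ℤ → K) (q + 1) := rfl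

theorem SS_pow (f : ℤ → K) (n : ℕ) (v : VV f) (q : ℤ) :
    ((SS f ^ n) v : ℤ → K) q = (v : ℤ → K) (q + n) := by
  induction n generalizing v q with
  | zero => simp
  | succ n ih =>
    have e : q + (n : ℤ) + 1 = q + ((n + 1 : ℕ) : ℤ) := by
      push_cast
      ring
    rw [pow_succ, Module.End.mul_apply, ih, SS_apply, e]

theorem per (evb : EvbStatement) (rou : RouStatement) : PerStatement := by
  classical
  intro K _ _ d r N f hd hr hN hper hdet k
  have hperN : ∀ (F : ℤ → K), F ∈ VV f → ∀ q, F (q + N) = F q := by
    intro F hF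
    induction hF using Submodule.span_induction with
    | mem F hF =>
      obtain ⟨p, rfl⟩ := hF
      intro q
      show f (p + (q + N)) = f (p + q)
      rw [← add_assoc]
      exact hper _
    | zero => intro q; rfl
    | add F G _ _ h1 h2 =>
      intro q
      show F (q + N) + G (q + N) = F q + G q
      rw [h1, h2]
    | smul a F _ h1 =>
      intro q
      show a * F (q + N) = a * F q
      rw [h1]
  -- the translates depend on `p` modulo `N`
  have hperZ : ∀ (m : ℤ) (k : ℤ), f (k + m * N) = f k := by
    intro m
    induction m using Int.induction_on with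
    | zero => intro k; simp
    | succ i ih =>
      intro k
      have e : k + ((i : ℤ) + 1) * N = (k + (i : ℤ) * N) + N := by ring
      rw [e, hper, ih]
    | pred i ih =>
      intro k
      have e : k + (-(i : ℤ) - 1) * N + N = k + -(i : ℤ) * N := by ring
      rw [← hper (k + (-(i : ℤ) - 1) * N), e, ih]
  have hrange : Set.range (tr f) ⊆ tr f '' (Set.Ico 0 (N : ℤ)) := by
    rintro _ ⟨p, rfl⟩
    have hN' : (0 : ℤ) < N := by exact_mod_cast hN
    refine ⟨p % N, ⟨Int.emod_nonneg _ hN'.ne', Int.emod_lt_of_pos _ hN'⟩, ?_⟩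
    funext q
    show f (p % N + q) = f (p + q)
    have e : p + q = p % N + q + (p / N) * N := by
      have := Int.emod_add_mul_ediv p N
      linarith
    rw [e, hperZ]
  have hfin : (Set.range (tr f)).Finite := ((Set.finite_Ico _ _).image _).subset hrange
  have hFD : FiniteDimensional K (VV f) := FiniteDimensional.span_of_finite K hfin
  have hlt : Module.finrank K (VV f) < r := by
    by_contra hcon
    push Not at hcon
    obtain ⟨b, hbs, hspan, hli⟩ := exists_linearIndependent K (Set.range (tr f))
    have hbf : b.Finite := hfin.subset hbs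
    have : Fintype b := hbf.fintype
    have hcard : Module.finrank K (VV f) = Fintype.card b := by
      have h1 := finrank_span_set_eq_card hli
      rw [hspan] at h1
      rw [show VV f = Submodule.span K (Set.range (tr f)) from rfl, h1, Set.toFinset_card]
    rw [hcard] at hcon
    obtain ⟨emb⟩ : Nonempty (Fin r ↪ b) := by
      rw [Function.Embedding.nonempty_iff_card_le, Fintype.card_fin]
      exact hcon
    have hF : LinearIndependent K (fun i : Fin r => ((emb i : b) : ℤ → K)) :=
      hli.comp emb emb.injective
    choose p hp using fun i : Fin r => hbs (emb i).2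
    obtain ⟨q, hq⟩ := evb K ℤ r _ hF
    apply hq
    rw [← hdet p q]
    congr 1
    ext i j
    show ((emb i : b) : ℤ → K) (q j) = f (p i + q j)
    rw [← hp i]
    rfl
  have hSN : SS f ^ N = 1 := by
    ext v q
    rw [SS_pow]
    exact hperN v v.2 q
  have hSM := rou K (VV f) d r N (SS f) hd hlt hN hSN
  have hmem : tr f 0 ∈ VV f := Submodule.subset_span ⟨0, rfl⟩
  have h1 := SS_pow f (2 * (d * r) ^ 2).factorial ⟨tr f 0, hmem⟩ k
  rw [hSM] at h1
  have h2 : f (0 + k) = f (0 + (k + ((2 * (d * r) ^ 2).factorial : ℤ))) := h1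
  rw [zero_add, zero_add] at h2
  exact h2.symm

end per

end Pool.Agent.THS.H49
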