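import Pool.Agent.THS.StmtsT

/-!
# THS row TCP: parity and periods of Theta_c (helper49)
-/

set_option autoImplicit false

namespace Pool.Agent.THS.H49

open scoped BigOperators
open Pool.Agent.THS

theorem exp_int_one (k : ℤ) (w : ℂ) (h : w = 2 * Real.pi * Complex.I * (k : ℂ)) :
    Complex.exp w = 1 := by
  rw [Complex.exp_eq_one_iff]
  exact ⟨k, by rw [h]; ring⟩

theorem tcp (tpe : TpeStatement) : TcpStatement := by
  intro g τ hτ c x
  have hs2 : ((2 : ℂ) • τ).transpose = (2 : ℂ) • τ := by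
    rw [Matrix.transpose_smul, hτ.1]
  constructor
  · unfold Thc
    obtain ⟨-, -, -, h4⟩ := tpe g ((2 : ℂ) • τ) hs2 (hv c) (fun i => 2 * x i) 0
    obtain ⟨h1, -, -, -⟩ := tpe g ((2 : ℂ) • τ) hs2 (fun i => -hv c i) (fun i => 2 * x i)
      (fun i => ((c i).val : ℤ))
    have e1 : (fun i => 2 * -x i) = fun i => -(2 * x i) := by
      funext i
      ring
    have e2 : (fun i => -hv c i + (((c i).val : ℤ) : ℝ)) = hv c := by
      funext i
      unfold hv
      push_cast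
      ring
    rw [e1, h4, ← h1, e2]
  · intro p q
    unfold Thc
    obtain ⟨-, -, h3, -⟩ := tpe g ((2 : ℂ) • τ) hs2 (hv c)
      (fun i => 2 * x i + ((2 * p i : ℤ) : ℂ)) q
    obtain ⟨-, h2, -, -⟩ := tpe g ((2 : ℂ) • τ) hs2 (hv c) (fun i => 2 * x i)
      (fun i => 2 * p i)
    have e1 : (fun i => 2 * (x i + ((p i : ℂ) + ∑ j, τ i j * (q j : ℂ)))) =
        fun i => 2 * x i + ((2 * p i : ℤ) : ℂ) + ∑ j, ((2 : ℂ) • τ) i j * (q j : ℂ) := by
      funext i
      have e : ∑ j, ((2 : ℂ) • τ) i j * (q j : ℂ) = 2 * ∑ j, τ i j * (q j : ℂ) := by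
        rw [Finset.mul_sum]
        refine Finset.sum_congr rfl fun j _ => ?_
        rw [Matrix.smul_apply, smul_eq_mul]
        ring
      rw [e]
      push_cast
      ring
    rw [e1, h3, h2, ← mul_assoc]
    congr 1
    rw [← Complex.exp_add]
    have e2 : ∑ i, ∑ j, (q i : ℂ) * ((2 : ℂ) • τ) i j * (q j : ℂ) =
        2 * ∑ i, ∑ j, (q i : ℂ) * τ i j * (q j : ℂ) := by
      rw [Finset.mul_sum]
      refine Finset.sum_congr rfl fun i _ => ?_
      rw [Finset.mul_sum]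
      refine Finset.sum_congr rfl fun j _ => ?_
      rw [Matrix.smul_apply, smul_eq_mul]
      ring
    have e3 : ∑ i, (q i : ℂ) * (2 * x i + ((2 * p i : ℤ) : ℂ)) =
        2 * ∑ i, (q i : ℂ) * x i + 2 * ∑ i, (q i : ℂ) * (p i : ℂ) := by
      rw [Finset.mul_sum, Finset.mul_sum, ← Finset.sum_add_distrib]
      refine Finset.sum_congr rfl fun i _ => ?_
      push_cast
      ring
    have e4 : ∑ i, ((hv c i : ℝ) : ℂ) * ((2 * p i : ℤ) : ℂ) =
        ∑ i, ((c i).val : ℂ) * (p i : ℂ) := by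
      refine Finset.sum_congr rfl fun i _ => ?_
      unfold hv
      push_cast
      ring
    rw [e2, e3, e4]
    have e5 : -(Real.pi * Complex.I * (2 * ∑ i, ∑ j, (q i : ℂ) * τ i j * (q j : ℂ))) -
        2 * Real.pi * Complex.I *
          (2 * ∑ i, (q i : ℂ) * x i + 2 * ∑ i, (q i : ℂ) * (p i : ℂ)) +
        2 * Real.pi * Complex.I * ∑ i, ((c i).val : ℂ) * (p i : ℂ) =
        (-(2 * Real.pi * Complex.I * ∑ i, ∑ j, (q i : ℂ) * τ i j * (q j : ℂ)) -
          4 * Real.pi * Complex.I * ∑ i, (q i : ℂ) * x i) +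
        2 * Real.pi * Complex.I *
          ((∑ i, ((c i).val : ℤ) * p i - 2 * ∑ i, q i * p i : ℤ) : ℂ) := by
      push_cast
      ring
    rw [e5, Complex.exp_add, exp_int_one _ _ rfl, mul_one]

end Pool.Agent.THS.H49
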